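import Pool.Agent.Helper45.PQ.StN

/-!
# Project PQ, module NU3: the arithmetic for `q = 27`
-/

set_option autoImplicit false

open Module Classical
open scoped LinearAlgebra.Projectivization

namespace Pool.Agent.Helper54.PQ

open Pool.Agent.Helper45.PQ

universe u v

private theorem fin_check (e e₁ : ℕ) (h1 : 1 ≤ e) (h2 : e ≤ e₁) (h3 : e₁ * (1 + e) + 1 ≤ 27)
    (H2 : 27 ^ 8 ≤ (44 ^ 3 + 1) * (27 ^ 4 + (e₁ * ((1 + e₁) * 27 ^ 3 + 26) +
      (25 - e₁) * ((1 + e) * 27 ^ 3 + 26))))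
    (H3 : ((26 - e₁) * 27 ^ 3) ^ 2 ≤ (44 ^ 3 + 1) * ((26 - e₁) * 27 ^ 3 +
      (25 - e₁) * ((1 + e) * 27 ^ 3 + 26))) : False := by
  have h4 : e₁ ≤ 13 := by nlinarith
  have h5 : e ≤ 4 := by nlinarith
  interval_cases e <;> interval_cases e₁ <;> omega

theorem hNU3 : StNU3.{v} := by
  intro α _ H m j hcard hm hsum hj hpair hB hA
  obtain ⟨R, hR, hRmax⟩ := Finset.exists_max_image H m (by
    rw [← Finset.card_pos]
    omega)
  have hE : (H.erase R).Nonempty := by
    rw [← Finset.card_pos, Finset.card_erase_of_mem hR]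
    omega
  obtain ⟨S, hS, hSmax⟩ := Finset.exists_max_image (H.erase R) m hE
  have hSH := Finset.mem_of_mem_erase hS
  have hne : R ≠ S := fun h => Finset.ne_of_mem_erase hS h.symm
  have h1 : 1 ≤ m S := hm S hSH
  have h2 : m S ≤ m R := hRmax S hSH
  have h3 := hpair R hR S hSH hne
  have h4 : m R ≤ 13 := by nlinarith
  have hs : m R + ∑ Z ∈ H.erase R, m Z = j := by
    rw [← hsum, Finset.add_sum_erase H m hR]
  have hsE : ∑ Z ∈ H.erase R, m Z * ((1 + m Z) * 27 ^ 3 + 1 + j) ≤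
      (25 - m R) * ((1 + m S) * 27 ^ 3 + 26) := by
    calc ∑ Z ∈ H.erase R, m Z * ((1 + m Z) * 27 ^ 3 + 1 + j)
        ≤ ∑ Z ∈ H.erase R, m Z * ((1 + m S) * 27 ^ 3 + 26) := by
          apply Finset.sum_le_sum
          intro Z hZ
          have h5 := hSmax Z hZ
          apply Nat.mul_le_mul_left
          omega
      _ = (∑ Z ∈ H.erase R, m Z) * ((1 + m S) * 27 ^ 3 + 26) := by
          rw [Finset.sum_mul]
      _ ≤ _ := by
          apply Nat.mul_le_mul_right
          omega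
  apply fin_check (m S) (m R) h1 h2 h3
  · refine hB.trans ?_
    apply Nat.mul_le_mul_left
    apply Nat.add_le_add_left
    rw [← Finset.add_sum_erase H _ hR]
    apply Nat.add_le_add _ hsE
    apply Nat.mul_le_mul_left
    omega
  · have h6 := hA R hR (26 - m R) (by omega)
    refine h6.trans ?_
    apply Nat.mul_le_mul_left
    apply Nat.add_le_add_left
    exact hsE

end Pool.Agent.Helper54.PQ
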