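import Pool.Agent.Helper45.PQ.StB

/-!
# Project PQ, module OVD: the ovoid of the section seen from a heavy point
-/

set_option autoImplicit false

open Module Classical
open scoped LinearAlgebra.Projectivization

namespace Pool.Agent.Helper54.PQ

open Pool.Agent.Helper45.PQ

open Pool.Agent.Helper53.PB (tt line eq_of_rep_mem_span left_mem_line right_mem_line line_le mem_line)

universe u v

variable {F : Type u} {V : Type v} [Field F] [AddCommGroup V] [Module F V]

/-- the four-dimensional space over `U` -/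
private def GG (K : Submodule F V) (U : Submodule F K) (x r : V) : Submodule F V :=
  U.map K.subtype ⊔ Submodule.span F {x} ⊔ Submodule.span F {r}

private theorem mem_GG {K : Submodule F V} {U : Submodule F K} {x r v : V} :
    v ∈ GG K U x r ↔ ∃ u ∈ U, ∃ b a : F, v = (u : V) + b • x + a • r := by
  unfold GG
  constructor
  · intro h
    obtain ⟨y, hy, z, hz, rfl⟩ := Submodule.mem_sup.1 h
    obtain ⟨y1, hy1, y2, hy2, rfl⟩ := Submodule.mem_sup.1 hy
    obtain ⟨u, hu, rfl⟩ := Submodule.mem_map.1 hy1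
    obtain ⟨b, rfl⟩ := Submodule.mem_span_singleton.1 hy2
    obtain ⟨a, rfl⟩ := Submodule.mem_span_singleton.1 hz
    exact ⟨u, hu, b, a, rfl⟩
  · rintro ⟨u, hu, b, a, rfl⟩
    refine Submodule.add_mem_sup (Submodule.add_mem_sup ?_ ?_) ?_
    · exact Submodule.mem_map_of_mem hu
    · exact Submodule.smul_mem _ _ (Submodule.mem_span_singleton_self _)
    · exact Submodule.smul_mem _ _ (Submodule.mem_span_singleton_self _)

private theorem sing_GG {Q : QuadraticForm F V} {K : Submodule F V} {U : Submodule F K} {x r : V}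
    (hU : ∀ u ∈ U, Q (u : V) = 0) (hx : Q x = 0) (hr : Q r = 0) (hrx : QuadraticMap.polar Q r x = 0)
    (hK : ∀ y ∈ K, QuadraticMap.polar Q r y = 0 ∧ QuadraticMap.polar Q x y = 0) :
    ∀ v ∈ GG K U x r, Q v = 0 := by
  unfold GG
  apply sing_sup
  · apply sing_sup
    · intro v hv
      obtain ⟨u, hu, rfl⟩ := Submodule.mem_map.1 hv
      exact hU u hu
    · exact hx
    · intro v hv
      obtain ⟨u, hu, rfl⟩ := Submodule.mem_map.1 hv
      exact (hK _ u.2).2
  · exact hr
  · intro v hv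
    obtain ⟨y1, hy1, y2, hy2, rfl⟩ := Submodule.mem_sup.1 hv
    obtain ⟨u, hu, rfl⟩ := Submodule.mem_map.1 hy1
    obtain ⟨b, rfl⟩ := Submodule.mem_span_singleton.1 hy2
    rw [QuadraticMap.polar_add_right, QuadraticMap.polar_smul_right, hrx,
      show QuadraticMap.polar Q r (K.subtype u) = 0 from (hK _ u.2).1]
    simp

private theorem finrank_GG [FiniteDimensional F V] {K : Submodule F V} {U : Submodule F K} {x r : V}
    (hx : x ≠ 0) (hr : r ≠ 0)
    (hind : ∀ y ∈ K, ∀ a b : F, y + a • r + b • x = 0 → y = 0 ∧ a = 0 ∧ b = 0)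
    (hU2 : finrank F U = 2) : finrank F (GG K U x r) = 4 := by
  have h1 : finrank F (U.map K.subtype) = 2 := by
    rw [← hU2]
    exact LinearEquiv.finrank_eq (Submodule.equivMapOfInjective K.subtype K.injective_subtype U).symm
  have h2 : U.map K.subtype ⊓ Submodule.span F {x} = ⊥ := by
    rw [eq_bot_iff]
    rintro v ⟨hv1, hv2⟩
    obtain ⟨u, hu, hv⟩ := Submodule.mem_map.1 hv1
    obtain ⟨b, hb⟩ := Submodule.mem_span_singleton.1 hv2
    have h3 : (u : V) + (0 : F) • r + (-b) • x = 0 := by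
      have h4 : (u : V) = v := hv
      rw [zero_smul, add_zero, neg_smul, hb, h4]
      abel
    rw [Submodule.mem_bot, ← hv]
    exact (hind _ u.2 _ _ h3).1
  have h3 := Submodule.finrank_sup_add_finrank_inf_eq (U.map K.subtype) (Submodule.span F {x})
  rw [h2, finrank_bot, h1, finrank_span_singleton hx] at h3
  have h4 : (U.map K.subtype ⊔ Submodule.span F {x}) ⊓ Submodule.span F {r} = ⊥ := by
    rw [eq_bot_iff]
    rintro v ⟨hv1, hv2⟩
    obtain ⟨y1, hy1, y2, hy2, hv⟩ := Submodule.mem_sup.1 hv1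
    obtain ⟨u, hu, hy⟩ := Submodule.mem_map.1 hy1
    obtain ⟨b, hb⟩ := Submodule.mem_span_singleton.1 hy2
    obtain ⟨a, ha⟩ := Submodule.mem_span_singleton.1 hv2
    have h5 : (u : V) + (-a) • r + b • x = 0 := by
      have h6 : (u : V) = y1 := hy
      rw [hb, neg_smul, ha, h6, ← hv]
      abel
    have h7 := (hind _ u.2 _ _ h5).2.1
    rw [neg_eq_zero] at h7
    rw [Submodule.mem_bot, ← ha, h7, zero_smul]
  have h5 := Submodule.finrank_sup_add_finrank_inf_eq (U.map K.subtype ⊔ Submodule.span F {x})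
    (Submodule.span F {r})
  rw [h4, finrank_bot, finrank_span_singleton hr] at h5
  unfold GG
  omega

private theorem core [Finite F] [Finite V] [FiniteDimensional F V] {Q : QuadraticForm F V}
    {T H : Finset (ℙ F V)} {m : ℙ F V → ℕ} {h j : ℕ} (c : Cfg Q T H m h j) {R : ℙ F V} (hR : R ∈ H)
    {x : V} (hx0 : x ≠ 0) (hx : Q x = 0) (hRx : QuadraticMap.polar Q R.rep x = 0)
    (hZ : ∀ Z ∈ H, Z ≠ R → QuadraticMap.polar Q R.rep Z.rep = 0 → QuadraticMap.polar Q x Z.rep ≠ 0)
    {K : Submodule F V}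
    (hK : ∀ y ∈ K, QuadraticMap.polar Q R.rep y = 0 ∧ QuadraticMap.polar Q x y = 0)
    (hind : ∀ y ∈ K, ∀ a b : F, y + a • R.rep + b • x = 0 → y = 0 ∧ a = 0 ∧ b = 0)
    {U : Submodule F K} (hU : ∀ u ∈ U, Q (u : V) = 0) (hU2 : finrank F U = 2) :
    (T.filter (fun y => y.rep ∈ GG K U x R.rep)).card = 1 + m R ∧
      ∀ P ∈ T, P.rep ∈ GG K U x R.rep → ∀ P' ∈ T, P'.rep ∈ GG K U x R.rep → P'.rep ∈ line P R := by
  have hG := sing_GG hU hx (c.sH R hR) hRx hK
  have hG4 := finrank_GG hx0 R.rep_nonzero hind hU2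
  have hRG : R.rep ∈ GG K U x R.rep := mem_GG.2 ⟨0, U.zero_mem, 0, 1, by simp⟩
  have hxG : x ∈ GG K U x R.rep := mem_GG.2 ⟨0, U.zero_mem, 1, 0, by simp⟩
  have hH : H.filter (fun S => S.rep ∈ GG K U x R.rep) = {R} := by
    ext Z
    rw [Finset.mem_filter, Finset.mem_singleton]
    constructor
    · rintro ⟨hZH, hZG⟩
      by_contra hne
      exact hZ Z hZH hne (polar_zero hG hRG hZG) (polar_zero hG hxG hZG)
    · rintro rfl
      exact ⟨hR, hRG⟩
  have hcard : (T.filter (fun y => y.rep ∈ GG K U x R.rep)).card = 1 + m R := by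
    have h1 := c.gn _ hG hG4
    unfold tt mass at h1
    rw [hH, Finset.sum_singleton] at h1
    exact h1
  refine ⟨hcard, ?_⟩
  intro P hP hPG P' hP' hPG'
  have hPR : R ≠ P := fun h => c.dis R hR (h ▸ hP)
  have h1 := c.ln P hP R hPR (c.sH R hR) (polar_zero hG hPG hRG)
  have h2 : m R ≤ mass H m (line P R) := by
    unfold mass
    exact Finset.single_le_sum (f := fun R => m R) (fun _ _ => Nat.zero_le _)
      (Finset.mem_filter.2 ⟨hR, right_mem_line P R⟩)
  have h3 : T.filter (fun y => y.rep ∈ line P R) ⊆ T.filter (fun y => y.rep ∈ GG K U x R.rep) := by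
    intro y hy
    rw [Finset.mem_filter] at hy ⊢
    exact ⟨hy.1, line_le hPG hRG hy.2⟩
  have h4 := Finset.eq_of_subset_of_card_le h3 (by
    rw [hcard]
    unfold tt at h1
    omega)
  have h5 : P' ∈ T.filter (fun y => y.rep ∈ GG K U x R.rep) := Finset.mem_filter.2 ⟨hP', hPG'⟩
  rw [← h4] at h5
  exact (Finset.mem_filter.1 h5).2

theorem hOVD : StOVD.{u, v} := by
  intro F _ _ V _ _ _ _ Q T H m h j c R hR x hx0 hx hRx hZ hPT K hK hind hQd
  have hcore := @core F V _ _ _ _ _ _ Q T H m h j c R hR x hx0 hx hRx hZ K hK hind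
  have hRT : ∀ P ∈ T, P ≠ R := fun P hP h => c.dis R hR (h ▸ hP)
  obtain ⟨InO, hInO⟩ : ∃ InO : ℙ F K → Prop, InO = fun y => Q (y.rep : V) = 0 ∧
    ∃ P ∈ T, ∃ c0 b a : F, P.rep = c0 • (y.rep : V) + b • x + a • R.rep := ⟨_, rfl⟩
  -- the coefficient of `y` is not zero
  have hc0 : ∀ P ∈ T, ∀ (y : V) (c0 b a : F), P.rep = c0 • y + b • x + a • R.rep → c0 ≠ 0 := by
    rintro P hP y c0 b a h0 rfl
    rw [zero_smul, zero_add, add_comm] at h0
    exact hPT P hP a b h0
  -- vectors of the line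
  have hline : ∀ (P P' : ℙ F V) (y : V) (c0 b a : F), P ∈ T → P' ∈ T → P'.rep ∈ line P R →
      P.rep = c0 • y + b • x + a • R.rep →
      ∃ s t : F, s ≠ 0 ∧ P'.rep = (s * c0) • y + (s * b) • x + (s * a + t) • R.rep := by
    intro P P' y c0 b a hP hP' hl h0
    obtain ⟨s, t, hst⟩ := mem_line.1 hl
    refine ⟨s, t, ?_, ?_⟩
    · rintro rfl
      apply hRT P' hP'
      apply eq_of_rep_mem_span
      rw [← hst, zero_smul, zero_add]
      exact Submodule.smul_mem _ _ (Submodule.mem_span_singleton_self _)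
    · rw [← hst, h0]
      module
  -- comparison of coefficients
  have hcmp : ∀ (y y' : K) (b a b' a' : F),
      (y : V) + b • x + a • R.rep = (y' : V) + b' • x + a' • R.rep → y = y' ∧ b = b' ∧ a = a' := by
    intro y y' b a b' a' h0
    have h1 : ((y - y' : K) : V) + (a - a') • R.rep + (b - b') • x = 0 := by
      have h2 : ((y - y' : K) : V) + (a - a') • R.rep + (b - b') • x =
          ((y : V) + b • x + a • R.rep) - ((y' : V) + b' • x + a' • R.rep) := by
        push_cast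
        module
      rw [h2, h0, sub_self]
    obtain ⟨h3, h4, h5⟩ := hind _ (y - y').2 _ _ h1
    refine ⟨?_, sub_eq_zero.1 h5, sub_eq_zero.1 h4⟩
    have h6 : y - y' = 0 := by exact_mod_cast h3
    exact sub_eq_zero.1 h6
  -- points of a totally singular subspace of dimension two
  have hexu : ∀ U : Submodule F K, (∀ u ∈ U, Q (u : V) = 0) → finrank F U = 2 →
      ∃! y, InO y ∧ y.rep ∈ U := by
    intro U hU hU2
    obtain ⟨hcd, hln⟩ := hcore hU hU2
    have hne : (T.filter (fun y => y.rep ∈ GG K U x R.rep)).Nonempty := by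
      rw [← Finset.card_pos]
      omega
    obtain ⟨P, hP⟩ := hne
    rw [Finset.mem_filter] at hP
    obtain ⟨hPT', hPG⟩ := hP
    obtain ⟨l, hl, b, a, hPr⟩ := mem_GG.1 hPG
    have hl0 : l ≠ 0 := by
      rintro rfl
      have h1 : P.rep = (0 : F) • (0 : V) + b • x + a • R.rep := by
        rw [hPr]
        simp
      exact hc0 P hPT' _ _ _ _ h1 rfl
    obtain ⟨e, he⟩ := Projectivization.exists_smul_eq_mk_rep F l hl0
    have hyU : (Projectivization.mk F l hl0).rep ∈ U := by
      rw [← he]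
      exact U.smul_mem (e : F) hl
    have hl2 : (l : V) = ((e⁻¹ : Fˣ) : F) • ((Projectivization.mk F l hl0).rep : V) := by
      rw [← he]
      have h2 : l = ((e⁻¹ : Fˣ) : F) • (e • l) := by
        rw [← Units.smul_def, inv_smul_smul]
      exact congrArg (fun w : K => (w : V)) h2
    refine ⟨Projectivization.mk F l hl0, ⟨?_, hyU⟩, ?_⟩
    · rw [hInO]
      exact ⟨hU _ hyU, P, hPT', ((e⁻¹ : Fˣ) : F), b, a, by rw [hPr, ← hl2]⟩
    · rintro y' ⟨hy', hyU'⟩
      rw [hInO] at hy'
      obtain ⟨-, P', hP', c0, b', a', hP'r⟩ := hy'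
      have hc0' := hc0 P' hP' _ _ _ _ hP'r
      have hPG' : P'.rep ∈ GG K U x R.rep :=
        mem_GG.2 ⟨c0 • y'.rep, U.smul_mem _ hyU', b', a', by rw [hP'r]; rfl⟩
      obtain ⟨s, t, hs, hst⟩ := hline P P' _ _ _ _ hPT' hP' (hln P hPT' hPG P' hP' hPG')
        (show P.rep = ((e⁻¹ : Fˣ) : F) • ((Projectivization.mk F l hl0).rep : V) + b • x + a • R.rep by
          rw [hPr, ← hl2])
      rw [hP'r] at hst
      have h1 := (hcmp (c0 • y'.rep) ((s * ((e⁻¹ : Fˣ) : F)) • (Projectivization.mk F l hl0).rep)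
        _ _ _ _ hst).1
      apply eq_of_rep_mem_span
      rw [Submodule.mem_span_singleton]
      refine ⟨c0⁻¹ * (s * ((e⁻¹ : Fˣ) : F)), ?_⟩
      rw [mul_smul, ← h1, smul_smul, inv_mul_cancel₀ hc0', one_smul]
  -- the data of a point of `O`
  have hdat : ∀ y : ℙ F K, ∃ g : F, InO y → ∃ P ∈ T, ∃ c0 a : F, c0 ≠ 0 ∧
      P.rep = c0 • ((y.rep : V) + g • x) + a • R.rep := by
    intro y
    by_cases hy : InO y
    · have hy' := hy
      rw [hInO] at hy'
      obtain ⟨-, P, hP, c0, b, a, hPr⟩ := hy'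
      have hc := hc0 P hP _ _ _ _ hPr
      refine ⟨c0⁻¹ * b, fun _ => ⟨P, hP, c0, a, hc, ?_⟩⟩
      rw [hPr, smul_add, smul_smul, mul_inv_cancel_left₀ hc]
    · exact ⟨0, fun h => absurd h hy⟩
  choose γ hγ using hdat
  have : Fintype F := Fintype.ofFinite F
  have : Finite K := inferInstance
  refine ⟨Finset.univ.filter InO, γ, fun y => Finset.univ.filter (fun a => ∃ P ∈ T, ∃ c : F, c ≠ 0 ∧
    P.rep = c • ((y.rep : V) + γ y • x + a • R.rep)), ?_, ?_⟩
  · refine ⟨?_, ?_⟩
    · intro y hy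
      have hy' := (Finset.mem_filter.1 hy).2
      rw [hInO] at hy'
      exact hy'.1
    · intro U hU hU2
      obtain ⟨y, hy, hyu⟩ := hexu U hU hU2
      refine ⟨y, ⟨Finset.mem_filter.2 ⟨Finset.mem_univ _, hy.1⟩, hy.2⟩, ?_⟩
      rintro y' ⟨h1, h2⟩
      exact hyu y' ⟨(Finset.mem_filter.1 h1).2, h2⟩
  · intro y hy
    have hyO := (Finset.mem_filter.1 hy).2
    refine ⟨?_, fun a ha => (Finset.mem_filter.1 ha).2⟩
    have hyO' := hyO
    rw [hInO] at hyO'
    have hysing := hyO'.1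
    obtain ⟨P, hP, c0, a0, hc00, hPr⟩ := hγ y hyO
    -- a totally singular subspace through y
    obtain ⟨U, hUy, hU, hU2⟩ := hQd.ext (Submodule.span F {y.rep}) (by
      intro z hz
      obtain ⟨e, rfl⟩ := Submodule.mem_span_singleton.1 hz
      change Q ((e • y.rep : K) : V) = 0
      rw [Submodule.coe_smul, QuadraticMap.map_smul, hysing]
      simp)
    have hyU : y.rep ∈ U := hUy (Submodule.mem_span_singleton_self _)
    obtain ⟨hcd, hln⟩ := hcore (U := U) hU hU2
    have hinG : ∀ e a : F, e • ((y.rep : V) + γ y • x + a • R.rep) ∈ GG K U x R.rep := by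
      intro e a
      apply Submodule.smul_mem
      exact mem_GG.2 ⟨y.rep, hyU, γ y, a, rfl⟩
    have hne : ∀ a : F, (y.rep : V) + γ y • x + a • R.rep ≠ 0 := by
      intro a h0
      have h1 := (hcmp y.rep 0 (γ y) a 0 0 (by rw [h0]; simp)).1
      exact y.rep_nonzero h1
    have hPG : P.rep ∈ GG K U x R.rep := by
      refine mem_GG.2 ⟨c0 • y.rep, U.smul_mem _ hyU, c0 * γ y, a0, ?_⟩
      rw [hPr, Submodule.coe_smul]
      module
    rw [← hcd]
    refine Finset.card_bij (fun a _ => Projectivization.mk F _ (hne a)) ?_ ?_ ?_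
    · intro a ha
      obtain ⟨P', hP', e, he, hPe⟩ := (Finset.mem_filter.1 ha).2
      have h1 : Projectivization.mk F _ (hne a) = P' := by
        rw [← P'.mk_rep, Projectivization.mk_eq_mk_iff']
        refine ⟨e⁻¹, ?_⟩
        rw [hPe, smul_smul, inv_mul_cancel₀ he, one_smul]
      rw [h1]
      refine Finset.mem_filter.2 ⟨hP', ?_⟩
      rw [hPe]
      exact hinG e a
    · intro a ha a' ha' heq
      rw [Projectivization.mk_eq_mk_iff'] at heq
      obtain ⟨e, he⟩ := heq
      have h1 := hcmp (e • y.rep) y.rep (e * γ y) (e * a') (γ y) a (by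
        rw [← he, Submodule.coe_smul]
        module)
      have h2 : e = 1 := by
        have h3 : (e - 1) • y.rep = 0 := by rw [sub_smul, h1.1, one_smul, sub_self]
        rcases smul_eq_zero.1 h3 with h4 | h4
        · exact sub_eq_zero.1 h4
        · exact absurd h4 y.rep_nonzero
      have h5 := h1.2.2
      rw [h2, one_mul] at h5
      exact h5.symm
    · intro P' hP'
      rw [Finset.mem_filter] at hP'
      obtain ⟨hP'T, hP'G⟩ := hP'
      obtain ⟨s, t, hs, hst⟩ := hline P P' ((y.rep : V) + γ y • x) c0 0 a0 hP hP'T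
        (hln P hP hPG P' hP'T hP'G) (by rw [hPr, zero_smul, add_zero])
      have hsc : s * c0 ≠ 0 := mul_ne_zero hs hc00
      have hPe : P'.rep = (s * c0) • ((y.rep : V) + γ y • x + ((s * c0)⁻¹ * (s * a0 + t)) • R.rep) := by
        rw [hst, smul_add (s * c0) ((y.rep : V) + γ y • x), smul_smul, mul_inv_cancel_left₀ hsc]
        simp
      refine ⟨(s * c0)⁻¹ * (s * a0 + t), Finset.mem_filter.2 ⟨Finset.mem_univ _, P', hP'T, s * c0, hsc, hPe⟩, ?_⟩
      rw [← P'.mk_rep, Projectivization.mk_eq_mk_iff']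
      refine ⟨(s * c0)⁻¹, ?_⟩
      rw [hPe, smul_smul, inv_mul_cancel₀ hsc, one_smul]

end Pool.Agent.Helper54.PQ
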